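import Mathlib
import Pool.Agent.Q202.HX.CC

set_option autoImplicit false

/-!
# Countably compact hyperextensions exist under CH

Assume CH. For every sequence of Hausdorff ultrafilters `s n` on `ℕ` a nonprincipal ultrafilter `V`
can be constructed by diagonalization such that the sum `W = V-∑ s n` is again Hausdorff: for any
two sequences of functions `f n`, `g n` with `f n (s n) ≠ g n (s n)` on an infinite set `A` there are
an infinite `B ⊆ A` and `C` with `C ∈ f n (s n)`, `C ∉ g n (s n)` for `n ∈ B`.  All limits
`V-lim f n (U)` are images of `W`, if `U` is below almost all `s n`.  The images of the elements of a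
maximal chain with respect to this relation between `W` and `U` form a directed invariant subspace
of `β ℕ` which is countably compact and consists of Hausdorff ultrafilters.
-/

namespace Pool.Agent.Results.MP_f4378e_lc.ExistsUnderCH

open Cardinal

/-- A topological extension of a set `X`: a `T₁` space `Carrier` containing `X` (by the map `emb`)
as a dense subset which is discrete in the subspace topology, with continuous extensions `star f` of
all functions `f : X → X`. -/
structure TopologicalExtension (X : Type) where
  /-- the extended space -/
  Carrier : Type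
  /-- its topology -/
  top : TopologicalSpace Carrier
  t1 : T1Space Carrier
  /-- the inclusion of `X` -/
  emb : X → Carrier
  emb_injective : Function.Injective emb
  dense : DenseRange emb
  discrete : DiscreteTopology (Set.range emb)
  /-- the extension of a function -/
  star : (X → X) → Carrier → Carrier
  continuous_star : ∀ f, Continuous (star f)
  star_emb : ∀ f x, star f (emb x) = emb (f x)
  comp : ∀ f g : X → X, star g ∘ star f = star (g ∘ f)
  ident : ∀ (f : X → X) (A : Set X), (∀ x ∈ A, f x = x) →
    ∀ ξ ∈ closure (emb '' A), star f ξ = ξ

/-- Hyperextensions: topological extensions with the properties (a) and (p). -/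
structure TopologicalExtension.IsHyperextension {X : Type} (E : TopologicalExtension X) : Prop where
  analytic : ∀ f g : X → X, (∀ x, f x ≠ g x) ↔ ∀ ξ, E.star f ξ ≠ E.star g ξ
  pairs : ∃ p q : X → X, ∀ ξ η : E.Carrier, ∃ ζ, E.star p ζ = ξ ∧ E.star q ζ = η

/-- A topological space is countably compact if it is Hausdorff and every countable open cover has
a finite subcover. -/
def IsCountablyCompactSpace (S : Type) (t : TopologicalSpace S) : Prop :=
  @T2Space S t ∧ ∀ O : ℕ → Set S, (∀ n, @IsOpen S t (O n)) → ⋃ n, O n = Set.univ →
    ∃ F : Finset ℕ, ⋃ n ∈ F, O n = Set.univ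

/-- **Answer to Q1 (yes).**  Under the continuum hypothesis `ℕ` has a countably compact
hyperextension. -/
theorem result : (𝔠 : Cardinal.{0}) = ℵ₁ →
    ∃ E : TopologicalExtension ℕ, E.IsHyperextension ∧ IsCountablyCompactSpace E.Carrier E.top := by
  classical
  intro hCH
  obtain ⟨H, hpure, hnp, hmap, hHaus, hdir, hlim⟩ := Q202.HX.exists_family hCH
  let emb : ℕ → H := fun n => ⟨pure n, hpure n⟩
  have hbasic : ∀ A : Set ℕ, IsOpen {U : H | A ∈ U.1} := fun A =>
    (ultrafilter_isOpen_basic A).preimage continuous_subtype_val
  have hclosed : ∀ A : Set ℕ, IsClosed {U : H | A ∈ U.1} := fun A =>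
    (ultrafilter_isClosed_basic A).preimage continuous_subtype_val
  let E : TopologicalExtension ℕ :=
    { Carrier := H
      top := inferInstance
      t1 := inferInstance
      emb := emb
      emb_injective := fun m n h => Ultrafilter.pure_injective (congrArg Subtype.val h)
      dense := by
        intro U
        rw [mem_closure_iff]
        intro O hO hUO
        rw [isOpen_induced_iff] at hO
        obtain ⟨W, hW, rfl⟩ := hO
        obtain ⟨_, ⟨C, rfl⟩, hC1, hC2⟩ :=
          ultrafilterBasis_is_basis.exists_subset_of_mem_open (a := U.1) hUO hW
        obtain ⟨n, hn⟩ := U.1.nonempty_of_mem hC1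
        exact ⟨emb n, hC2 hn, n, rfl⟩
      discrete := by
        rw [discreteTopology_iff_forall_isOpen]
        intro s
        have hs : s = ⋃ n ∈ {n : ℕ | (⟨emb n, n, rfl⟩ : Set.range emb) ∈ s},
            (Subtype.val ⁻¹' {U : H | {n} ∈ U.1} : Set (Set.range emb)) := by
          ext ⟨U, n, hn⟩
          subst hn
          simp only [Set.mem_iUnion, Set.mem_preimage, Set.mem_ofPred_eq, exists_prop]
          constructor
          · intro h
            exact ⟨n, h, rfl⟩
          · rintro ⟨m, hm, h⟩
            have h1 : n = m := h
            subst h1
            exact hm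
        rw [hs]
        exact isOpen_biUnion fun n _ => (hbasic {n}).preimage continuous_subtype_val
      star := fun f U => ⟨U.1.map f, hmap U.1 U.2 f⟩
      continuous_star := by
        intro f
        apply Continuous.subtype_mk
        apply Continuous.comp (g := fun U : Ultrafilter ℕ => U.map f) _ continuous_subtype_val
        apply ultrafilterBasis_is_basis.continuous_iff.2
        rintro _ ⟨A, rfl⟩
        exact ultrafilter_isOpen_basic (f ⁻¹' A)
      star_emb := by
        intro f n
        apply Subtype.ext
        exact Ultrafilter.map_pure f n
      comp := by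
        intro f g
        funext U
        apply Subtype.ext
        exact Ultrafilter.map_map U.1 f g
      ident := by
        intro f A hfA U hU
        have h1 : A ∈ U.1 := by
          have h2 : closure (emb '' A) ⊆ {U : H | A ∈ U.1} := by
            apply closure_minimal _ (hclosed A)
            rintro _ ⟨n, hn, rfl⟩
            exact hn
          exact h2 hU
        apply Subtype.ext
        have h2 : U.1.map f = U.1.map id := by
          apply Q202.HX.map_congr
          exact Filter.mem_of_superset h1 hfA
        exact h2.trans (Ultrafilter.map_id _) }
  refine ⟨E, ⟨?_, ?_⟩, ?_, ?_⟩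
  · intro f g
    constructor
    · intro h U hU
      have h1 : {n | f n = g n} ∈ U.1 := hHaus U.1 U.2 f g (congrArg Subtype.val hU)
      obtain ⟨n, hn⟩ := U.1.nonempty_of_mem h1
      exact h n hn
    · intro h n hn
      apply h (emb n)
      apply Subtype.ext
      change (pure n : Ultrafilter ℕ).map f = (pure n : Ultrafilter ℕ).map g
      rw [Ultrafilter.map_pure, Ultrafilter.map_pure, hn]
  · refine ⟨fun n => (Nat.unpair n).1, fun n => (Nat.unpair n).2, ?_⟩
    intro U V
    obtain ⟨W, hW, p, q, hp, hq⟩ := hdir U.1 U.2 V.1 V.2
    refine ⟨⟨W.map (fun n => Nat.pair (p n) (q n)), hmap W hW _⟩, ?_, ?_⟩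
    · apply Subtype.ext
      change (W.map _).map _ = U.1
      rw [Ultrafilter.map_map, ← hp]
      congr 1
      funext n
      simp
    · apply Subtype.ext
      change (W.map _).map _ = V.1
      rw [Ultrafilter.map_map, ← hq]
      congr 1
      funext n
      simp
  · exact (inferInstance : T2Space H)
  · intro O hO hcov
    exact Q202.HX.cc H hlim O hO hcov

end Pool.Agent.Results.MP_f4378e_lc.ExistsUnderCH
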